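import Pool.Agent.WIR.StmtsC

/-!
Squad WIR, row INJ: the integer of a word determines the word.
-/

namespace Pool.Agent.WIR.H66

open scoped BigOperators
open Pool.Agent.WIR

private lemma two_inv (N : ℕ) : (2 : ZMod (3 ^ N)) * (2 : ZMod (3 ^ N))⁻¹ = 1 := by
  have h : Nat.Coprime 2 (3 ^ N) := Nat.Coprime.pow_right N (by norm_num)
  have := ZMod.coe_mul_inv_eq_one 2 h
  simpa using this

private lemma two_pow_inv (N L p : ℕ) (h : p ≤ L) :
    (2 : ZMod (3 ^ N)) ^ L * (2 : ZMod (3 ^ N))⁻¹ ^ p = 2 ^ (L - p) := by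
  obtain ⟨d, rfl⟩ := Nat.exists_eq_add_of_le h
  rw [Nat.add_sub_cancel_left, pow_add]
  calc (2 : ZMod (3 ^ N)) ^ p * 2 ^ d * (2 : ZMod (3 ^ N))⁻¹ ^ p
      = (2 * (2 : ZMod (3 ^ N))⁻¹) ^ p * 2 ^ d := by rw [mul_pow]; ring
    _ = 2 ^ d := by rw [two_inv, one_pow, one_mul]

private lemma inj1 (N L : ℕ) (O : Finset ℕ) (hO : O ⊆ Finset.Icc 1 L) :
    (2 : ZMod (3 ^ N)) ^ L * FO N O = (nO L O : ZMod (3 ^ N)) := by
  unfold FO nO
  rw [Finset.mul_sum, Nat.cast_sum]
  refine Finset.sum_congr rfl (fun p hp => ?_)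
  have hpL : p ≤ L := (Finset.mem_Icc.mp (hO hp)).2
  rw [mul_left_comm, two_pow_inv N L p hpL]
  push_cast
  ring

private lemma step (L : ℕ) (O : Finset ℕ) (P : ℕ) (hP : P ∈ O) (hmax : ∀ q ∈ O, q ≤ P)
    (hL : P ≤ L) :
    nO L O = 3 ^ (O.card - 1) * 2 ^ (L - P) + nO L (O.erase P) ∧
      2 ^ (L - P + 1) ∣ nO L (O.erase P) := by
  have hrk : rk O P = O.card - 1 := by
    unfold rk
    rw [← Finset.card_erase_of_mem hP]
    congr 1
    ext q
    simp only [Finset.mem_filter, Finset.mem_erase]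
    constructor
    · rintro ⟨h1, h2⟩
      exact ⟨by omega, h1⟩
    · rintro ⟨h1, h2⟩
      exact ⟨h2, lt_of_le_of_ne (hmax q h2) h1⟩
  have hrk' : ∀ p ∈ O.erase P, rk O p = rk (O.erase P) p := by
    intro p hp
    unfold rk
    congr 1
    ext q
    simp only [Finset.mem_filter, Finset.mem_erase]
    have hpP : p ≤ P := hmax p (Finset.mem_of_mem_erase hp)
    constructor
    · rintro ⟨h1, h2⟩
      exact ⟨⟨by omega, h1⟩, h2⟩
    · rintro ⟨⟨h0, h1⟩, h2⟩
      exact ⟨h1, h2⟩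
  constructor
  · unfold nO
    rw [← Finset.add_sum_erase O _ hP, hrk]
    congr 1
    exact Finset.sum_congr rfl (fun p hp => by rw [hrk' p hp])
  · unfold nO
    refine Finset.dvd_sum (fun p hp => ?_)
    refine Dvd.dvd.mul_left ?_ _
    have hpP : p ≤ P := hmax p (Finset.mem_of_mem_erase hp)
    have hne : p ≠ P := (Finset.mem_erase.mp hp).1
    exact pow_dvd_pow 2 (by omega)

private lemma odd_part (L : ℕ) (O : Finset ℕ) (P : ℕ) (hP : P ∈ O) (hmax : ∀ q ∈ O, q ≤ P)
    (hL : P ≤ L) : ∃ m, nO L O = 2 ^ (L - P) * (2 * m + 1) := by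
  obtain ⟨h1, ⟨c, hc⟩⟩ := step L O P hP hmax hL
  have h3 : Odd (3 ^ (O.card - 1)) := Odd.pow (by decide)
  obtain ⟨m, hm⟩ := h3
  refine ⟨m + c, ?_⟩
  rw [h1, hc, hm, pow_succ]
  ring

private lemma pow_odd_eq {a b m n : ℕ} (h : 2 ^ a * (2 * m + 1) = 2 ^ b * (2 * n + 1)) :
    a = b := by
  rcases lt_trichotomy a b with hab | hab | hab
  · exfalso
    obtain ⟨d, rfl⟩ := Nat.exists_eq_add_of_lt hab
    have h2 : 2 ^ a * (2 * m + 1) = 2 ^ a * (2 * (2 ^ d * (2 * n + 1))) := by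
      rw [h, pow_succ, pow_add]
      ring
    have h3 := Nat.eq_of_mul_eq_mul_left (by positivity) h2
    omega
  · exact hab
  · exfalso
    obtain ⟨d, rfl⟩ := Nat.exists_eq_add_of_lt hab
    have h2 : 2 ^ b * (2 * (2 ^ d * (2 * m + 1))) = 2 ^ b * (2 * n + 1) := by
      rw [← h, pow_succ, pow_add]
      ring
    have h3 := Nat.eq_of_mul_eq_mul_left (by positivity) h2
    omega

private lemma inj2 (L : ℕ) : ∀ (k : ℕ) (O O' : Finset ℕ), O ⊆ Finset.Icc 1 L →
    O' ⊆ Finset.Icc 1 L → O.card = k → O'.card = k → nO L O = nO L O' → O = O' := by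
  intro k
  induction k with
  | zero =>
    intro O O' _ _ h1 h2 _
    rw [Finset.card_eq_zero.mp h1, Finset.card_eq_zero.mp h2]
  | succ k ih =>
    intro O O' hO hO' h1 h2 h
    have hne : O.Nonempty := Finset.card_pos.mp (by omega)
    have hne' : O'.Nonempty := Finset.card_pos.mp (by omega)
    have hP := Finset.max'_mem O hne
    have hP' := Finset.max'_mem O' hne'
    have hmax : ∀ q ∈ O, q ≤ O.max' hne := fun q hq => Finset.le_max' O q hq
    have hmax' : ∀ q ∈ O', q ≤ O'.max' hne' := fun q hq => Finset.le_max' O' q hq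
    generalize O.max' hne = P at hP hmax
    generalize O'.max' hne' = P' at hP' hmax'
    have hPL : P ≤ L := (Finset.mem_Icc.mp (hO hP)).2
    have hPL' : P' ≤ L := (Finset.mem_Icc.mp (hO' hP')).2
    obtain ⟨m, hm⟩ := odd_part L O P hP hmax hPL
    obtain ⟨m', hm'⟩ := odd_part L O' P' hP' hmax' hPL'
    have hPP : P = P' := by
      have := pow_odd_eq (a := L - P) (b := L - P') (m := m) (n := m') (by rw [← hm, ← hm', h])
      omega
    subst hPP
    have s1 := (step L O P hP hmax hPL).1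
    have s2 := (step L O' P hP' hmax' hPL').1
    have hE : O.erase P = O'.erase P := by
      refine ih (O.erase P) (O'.erase P) ((Finset.erase_subset _ _).trans hO)
        ((Finset.erase_subset _ _).trans hO') ?_ ?_ ?_
      · rw [Finset.card_erase_of_mem hP]
        omega
      · rw [Finset.card_erase_of_mem hP']
        omega
      · rw [h1] at s1
        rw [h2] at s2
        omega
    rw [← Finset.insert_erase hP, ← Finset.insert_erase hP', hE]

theorem inj : InjStmt :=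
  ⟨fun N L O hO => inj1 N L O hO, fun L O O' hO hO' hc h => inj2 L O'.card O O' hO hO' hc rfl h⟩

end Pool.Agent.WIR.H66
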